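import Pool.Agent.Lib.helper5.Anal

namespace Pool.Agent.Results.MP_1f8704_gt.LinAnalytic

theorem result (X Y : Type) [TopologicalSpace X] [TopologicalSpace Y] [T35Space X] [T35Space Y]
    (hX : ∃ g : (ℕ → ℕ) → X, Continuous g ∧ Function.Surjective g)
    (T : C(X, ℝ) →ₗ[ℝ] C(Y, ℝ))
    (hT : @Continuous _ _
      (TopologicalSpace.induced (fun f : C(X, ℝ) => (f : X → ℝ)) inferInstance)
      (TopologicalSpace.induced (fun f : C(Y, ℝ) => (f : Y → ℝ)) inferInstance) T)
    (hs : Function.Surjective T) (h : Nonempty Y ∨ Function.Injective T) :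
    ∃ k : (ℕ → ℕ) → Y, Continuous k ∧ Function.Surjective k := by
  obtain ⟨g, g1, g2⟩ := hX
  have : Nonempty Y := h.elim id fun h => by
    by_contra hn
    have := not_nonempty_iff.1 hn
    have : (0 : C(X, ℝ)) = 1 := h (ContinuousMap.ext fun y => isEmptyElim y)
    simpa using DFunLike.congr_fun this (g 0)
  exact H5E.anal g1 g2 T hT hs

end Pool.Agent.Results.MP_1f8704_gt.LinAnalytic
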